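import Mathlib

open Filter Topology

set_option autoImplicit false

namespace Pool.Agent.Results.MP_52e7c8_nt.NoWeakDarboux

/-- An upper quasi-density on `ℤ`: `μ ℤ = 1`, `μ (X ∪ Y) ≤ μ X + μ Y`,
`μ (k • X + h) = μ X / k` for all integers `k, h ≥ 1`, and `μ X ≤ 1`. -/
structure IsUpperQuasiDensity (μ : Set ℤ → ℝ) : Prop where
  univ_eq : μ Set.univ = 1
  union_le : ∀ X Y : Set ℤ, μ (X ∪ Y) ≤ μ X + μ Y
  affine : ∀ (X : Set ℤ) (k h : ℕ), 0 < k → 0 < h →
    μ ((fun x : ℤ => (k : ℤ) * x + (h : ℤ)) '' X) = μ X / (k : ℝ)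
  le_one : ∀ X : Set ℤ, μ X ≤ 1

/-- The domain of the quasi-density induced by `μ`: the sets `X` with `μ X + μ Xᶜ = 1`. -/
def InDom (μ : Set ℤ → ℝ) (X : Set ℤ) : Prop := μ X + μ Xᶜ = 1

/-! ### A generic set -/

/-- The requirement attached to a residue class and two finite sets of affine maps. -/
def Req (x : ℤ → Bool) (M : ℕ) (r : ℤ) (P N : Finset (ℕ × ℤ)) : Prop :=
  ∃ n : ℤ, (M : ℤ) ∣ n - r ∧ (∀ p ∈ P, x ((n - p.2) / (p.1 : ℤ)) = true) ∧
    (∀ p ∈ N, x ((n - p.2) / (p.1 : ℤ)) = false)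

/-- The requirement is meaningful. -/
def Adm (M : ℕ) (r : ℤ) (P N : Finset (ℕ × ℤ)) : Prop :=
  0 < M ∧ Disjoint P N ∧ ∀ p ∈ P ∪ N, 0 < p.1 ∧ p.1 ∣ M ∧ (p.1 : ℤ) ∣ r - p.2

lemma isOpen_req (M : ℕ) (r : ℤ) (P N : Finset (ℕ × ℤ)) : IsOpen {x : ℤ → Bool | Req x M r P N} := by
  have : {x : ℤ → Bool | Req x M r P N} = ⋃ n ∈ {n : ℤ | (M : ℤ) ∣ n - r},
      ((⋂ p ∈ P, {x : ℤ → Bool | x ((n - p.2) / (p.1 : ℤ)) = true}) ∩
        ⋂ p ∈ N, {x : ℤ → Bool | x ((n - p.2) / (p.1 : ℤ)) = false}) := by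
    ext x
    simp only [Req, Set.mem_ofPred_eq, Set.mem_iUnion, Set.mem_inter_iff, Set.mem_iInter,
      exists_prop]
  rw [this]
  refine isOpen_biUnion fun n _ => IsOpen.inter ?_ ?_
  · refine isOpen_biInter_finset fun p _ => ?_
    have hc : Continuous (fun x : ℤ → Bool => x ((n - p.2) / (p.1 : ℤ))) := continuous_apply _
    exact (isOpen_discrete ({true} : Set Bool)).preimage hc
  · refine isOpen_biInter_finset fun p _ => ?_
    have hc : Continuous (fun x : ℤ → Bool => x ((n - p.2) / (p.1 : ℤ))) := continuous_apply _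
    exact (isOpen_discrete ({false} : Set Bool)).preimage hc

lemma div_eq_iff' {n h j : ℤ} {k : ℕ} (hk : 0 < k) (hd : (k : ℤ) ∣ n - h) :
    (n - h) / (k : ℤ) = j ↔ n = k * j + h := by
  obtain ⟨c, hc⟩ := hd
  have hk' : (k : ℤ) ≠ 0 := by positivity
  rw [hc, Int.mul_ediv_cancel_left _ hk']
  constructor
  · rintro rfl; linarith
  · intro h1
    have : (k : ℤ) * c = k * j := by linarith
    exact mul_left_cancel₀ hk' this

lemma dense_req (M : ℕ) (r : ℤ) (P N : Finset (ℕ × ℤ)) (h : Adm M r P N) :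
    Dense {x : ℤ → Bool | Req x M r P N} := by
  classical
  obtain ⟨hM, hdisj, hadm⟩ := h
  rw [dense_iff_inter_open]
  rintro U hU ⟨x₀, hx₀⟩
  obtain ⟨I, u, hu, hsub⟩ := isOpen_pi_iff.1 hU x₀ hx₀
  -- bad values of `n`
  have hM' : (M : ℤ) ≠ 0 := by positivity
  set A : Set ℤ := {n : ℤ | (M : ℤ) ∣ n - r} with hA
  have hAinf : A.Infinite := by
    refine Set.infinite_of_injective_forall_mem (f := fun t : ℤ => r + M * t) ?_ ?_
    · intro a b hab
      simp only [add_right_inj] at hab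
      exact mul_left_cancel₀ hM' hab
    · intro t
      exact ⟨t, by ring⟩
  have hdvd : ∀ n ∈ A, ∀ p ∈ P ∪ N, (p.1 : ℤ) ∣ n - p.2 := by
    intro n hn p hp
    obtain ⟨_, h2, h3⟩ := hadm p hp
    have h4 : (p.1 : ℤ) ∣ n - r := (Int.natCast_dvd_natCast.2 h2).trans hn
    have : n - p.2 = (n - r) + (r - p.2) := by ring
    rw [this]
    exact dvd_add h4 h3
  have hbad1 : (⋃ p ∈ P ∪ N, ⋃ i ∈ I, {n : ℤ | n = (p.1 : ℤ) * i + p.2}).Finite := by
    refine (P ∪ N).finite_toSet.biUnion fun p _ => I.finite_toSet.biUnion fun i _ => ?_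
    exact Set.finite_singleton _
  have hbad2 : (⋃ p ∈ P ∪ N, ⋃ q ∈ P ∪ N, {n : ℤ | n ∈ A ∧ p ≠ q ∧
      (n - p.2) / (p.1 : ℤ) = (n - q.2) / (q.1 : ℤ)}).Finite := by
    refine (P ∪ N).finite_toSet.biUnion fun p hp => (P ∪ N).finite_toSet.biUnion fun q hq => ?_
    refine Set.Subsingleton.finite ?_
    rintro n ⟨hn, hpq, hne⟩ m ⟨hm, _, hme⟩
    have hp0 := (hadm p hp).1
    have hq0 := (hadm q hq).1
    rw [div_eq_iff' hp0 (hdvd n hn p hp)] at hne
    rw [div_eq_iff' hp0 (hdvd m hm p hp)] at hme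
    obtain ⟨c, hc⟩ := hdvd n hn q hq
    obtain ⟨d, hd⟩ := hdvd m hm q hq
    have hq' : (q.1 : ℤ) ≠ 0 := by positivity
    rw [hc, Int.mul_ediv_cancel_left _ hq'] at hne
    rw [hd, Int.mul_ediv_cancel_left _ hq'] at hme
    -- `n = p.1 c + p.2 = q.1 c + q.2` and similarly for `m`
    by_cases hk : p.1 = q.1
    · exfalso
      have h1 : p.2 = q.2 := by
        have : (p.1 : ℤ) * c = q.1 * c := by rw [hk]
        linarith
      exact hpq (Prod.ext hk h1)
    · have h1 : ((p.1 : ℤ) - q.1) * (c - d) = 0 := by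
        have e1 : n = q.1 * c + q.2 := by linarith
        have e2 : m = q.1 * d + q.2 := by linarith
        linear_combination (-1 : ℤ) * hne + e1 + hme - e2
      rcases mul_eq_zero.1 h1 with h2 | h2
      · exfalso
        apply hk
        have : (p.1 : ℤ) = q.1 := by linarith
        exact_mod_cast this
      · have : c = d := by linarith
        rw [this] at hne
        linarith
  obtain ⟨n, hnA, hn⟩ := hAinf.exists_notMem_finite (hbad1.union hbad2)
  have hn1 : ∀ p ∈ P ∪ N, (n - p.2) / (p.1 : ℤ) ∉ I := by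
    intro p hp hi
    apply hn
    left
    refine Set.mem_biUnion hp (Set.mem_biUnion hi ?_)
    exact (div_eq_iff' (hadm p hp).1 (hdvd n hnA p hp)).1 rfl
  have hn2 : ∀ p ∈ P ∪ N, ∀ q ∈ P ∪ N, p ≠ q →
      (n - p.2) / (p.1 : ℤ) ≠ (n - q.2) / (q.1 : ℤ) := by
    intro p hp q hq hpq he
    apply hn
    right
    exact Set.mem_biUnion hp (Set.mem_biUnion hq ⟨hnA, hpq, he⟩)
  -- the modified point
  let x : ℤ → Bool := fun j =>
    if j ∈ I then x₀ j else decide (∃ p ∈ P, (n - p.2) / (p.1 : ℤ) = j)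
  refine ⟨x, hsub ?_, n, hnA, ?_, ?_⟩
  · intro i hi
    have : x i = x₀ i := by simp only [x]; rw [if_pos (by exact_mod_cast hi)]
    rw [this]
    exact (hu i (by exact_mod_cast hi)).2
  · intro p hp
    have h1 := hn1 p (Finset.mem_union_left _ hp)
    simp only [x, if_neg h1]
    exact decide_eq_true ⟨p, hp, rfl⟩
  · intro q hq
    have h1 := hn1 q (Finset.mem_union_right _ hq)
    simp only [x, if_neg h1]
    refine decide_eq_false ?_
    rintro ⟨p, hp, he⟩
    have hpq : p ≠ q := fun h => Finset.disjoint_left.1 hdisj hp (h ▸ hq)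
    exact hn2 p (Finset.mem_union_left _ hp) q (Finset.mem_union_right _ hq) hpq he

/-- A generic set. -/
def Generic (X : Set ℤ) : Prop :=
  ∀ (M : ℕ) (r : ℤ) (P N : Finset (ℕ × ℤ)), Adm M r P N →
    ∃ n : ℤ, (M : ℤ) ∣ n - r ∧ (∀ p ∈ P, (n - p.2) / (p.1 : ℤ) ∈ X) ∧
      (∀ p ∈ N, (n - p.2) / (p.1 : ℤ) ∉ X)

lemma exists_generic : ∃ X : Set ℤ, Generic X := by
  classical
  let J := ℕ × ℤ × Finset (ℕ × ℤ) × Finset (ℕ × ℤ)
  let W : J → Set (ℤ → Bool) := fun q =>
    {x | Adm q.1 q.2.1 q.2.2.1 q.2.2.2 → Req x q.1 q.2.1 q.2.2.1 q.2.2.2}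
  have hW : ∀ q : J, IsOpen (W q) ∧ Dense (W q) := by
    intro q
    by_cases h : Adm q.1 q.2.1 q.2.2.1 q.2.2.2
    · have : W q = {x | Req x q.1 q.2.1 q.2.2.1 q.2.2.2} := by
        ext x
        simp [W, h]
      rw [this]
      exact ⟨isOpen_req _ _ _ _, dense_req _ _ _ _ h⟩
    · have : W q = Set.univ := by
        ext x
        simp [W, h]
      rw [this]
      exact ⟨isOpen_univ, dense_univ⟩
  have hd : Dense (⋂ q, W q) := dense_iInter_of_isOpen (fun q => (hW q).1) (fun q => (hW q).2)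
  obtain ⟨x, hx⟩ := hd.nonempty
  refine ⟨{j | x j = true}, fun M r P N hadm => ?_⟩
  obtain ⟨n, h1, h2, h3⟩ := (Set.mem_iInter.1 hx (M, r, P, N)) hadm
  refine ⟨n, h1, h2, fun p hp => ?_⟩
  have := h3 p hp
  simp [this]

/-! ### Consequences of genericity -/

section Gen

variable {X : Set ℤ} (hX : Generic X)

include hX in
/-- A generic set meets every residue class. -/
lemma Generic.meets {M : ℕ} (hM : 0 < M) (r : ℤ) : ∃ n ∈ X, (M : ℤ) ∣ n - r := by
  obtain ⟨n, h1, h2, _⟩ := hX M r {(1, 0)} ∅ ⟨hM, by simp, by simp⟩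
  exact ⟨n, by simpa using h2, h1⟩

include hX in
/-- The complement of a generic set meets every residue class. -/
lemma Generic.meets_compl {M : ℕ} (hM : 0 < M) (r : ℤ) : ∃ n ∈ Xᶜ, (M : ℤ) ∣ n - r := by
  obtain ⟨n, h1, _, h3⟩ := hX M r ∅ {(1, 0)} ⟨hM, by simp, by simp⟩
  exact ⟨n, by simpa using h3, h1⟩

end Gen

/-! ### Pieces -/

/-- A piece `k • A + h`. -/
structure Piece where
  /-- the dilation factor -/
  k : ℕ
  /-- the translation -/
  h : ℤ
  /-- the set -/
  A : Set ℤ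
  pos : 0 < k

/-- The set of a piece. -/
def Piece.set (p : Piece) : Set ℤ := (fun x : ℤ => (p.k : ℤ) * x + p.h) '' p.A

open Classical in
/-- The weight of a set: `1/2` for `X` and its complement, `1` otherwise. -/
noncomputable def wt (X A : Set ℤ) : ℝ := if A = X ∨ A = Xᶜ then 1 / 2 else 1

lemma half_le_wt (X A : Set ℤ) : 1 / 2 ≤ wt X A := by
  unfold wt
  split_ifs <;> norm_num

lemma wt_le_one (X A : Set ℤ) : wt X A ≤ 1 := by
  unfold wt
  split_ifs <;> norm_num

/-- The cost of a piece. -/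
noncomputable def Piece.cost (X : Set ℤ) (p : Piece) : ℝ := wt X p.A / (p.k : ℝ)

/-- The union of a list of pieces. -/
def uni (L : List Piece) : Set ℤ := {n | ∃ p ∈ L, n ∈ p.set}

/-- The cost of a list of pieces. -/
noncomputable def cost (X : Set ℤ) (L : List Piece) : ℝ := (L.map (Piece.cost X)).sum

/-- The function `μ`: the least cost of a representation as a union of pieces. -/
noncomputable def mu (X S : Set ℤ) : ℝ := sInf {c | ∃ L : List Piece, uni L = S ∧ cost X L = c}

lemma Piece.cost_nonneg (X : Set ℤ) (p : Piece) : 0 ≤ p.cost X := by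
  unfold Piece.cost
  have := half_le_wt X p.A
  positivity

lemma cost_nonneg (X : Set ℤ) (L : List Piece) : 0 ≤ cost X L := by
  unfold cost
  refine List.sum_nonneg ?_
  intro a ha
  obtain ⟨p, _, rfl⟩ := List.mem_map.1 ha
  exact p.cost_nonneg X

lemma bddBelow (X S : Set ℤ) : BddBelow {c | ∃ L : List Piece, uni L = S ∧ cost X L = c} :=
  ⟨0, by rintro _ ⟨L, _, rfl⟩; exact cost_nonneg X L⟩

lemma mu_le (X : Set ℤ) (L : List Piece) : mu X (uni L) ≤ cost X L :=
  csInf_le (bddBelow X _) ⟨L, rfl, rfl⟩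

/-- The trivial piece. -/
def triv (S : Set ℤ) : Piece := ⟨1, 0, S, one_pos⟩

lemma set_triv (S : Set ℤ) : (triv S).set = S := by
  simp [triv, Piece.set]

lemma uni_triv (S : Set ℤ) : uni [triv S] = S := by
  simp [uni, set_triv]

lemma cost_triv (X S : Set ℤ) : cost X [triv S] = wt X S := by
  simp [cost, Piece.cost, triv]

lemma nonempty (X S : Set ℤ) : {c | ∃ L : List Piece, uni L = S ∧ cost X L = c}.Nonempty :=
  ⟨_, [triv S], uni_triv S, rfl⟩

lemma exists_lt (X S : Set ℤ) {ε : ℝ} (hε : 0 < ε) :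
    ∃ L, uni L = S ∧ cost X L < mu X S + ε := by
  obtain ⟨c, ⟨L, h1, h2⟩, h3⟩ := Real.lt_sInf_add_pos (nonempty X S) hε
  exact ⟨L, h1, by rw [h2]; exact h3⟩

lemma mu_le_wt (X S : Set ℤ) : mu X S ≤ wt X S := by
  have := mu_le X [triv S]
  rwa [uni_triv, cost_triv] at this

lemma le_mu (X S : Set ℤ) (c : ℝ) (h : ∀ L, uni L = S → c ≤ cost X L) : c ≤ mu X S :=
  le_csInf (nonempty X S) (by rintro _ ⟨L, h1, rfl⟩; exact h L h1)

/-! ### Residue classes -/

open Classical in
/-- The total weight of the pieces of `L` that can meet the residue class of `r`. -/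
noncomputable def act (X : Set ℤ) (L : List Piece) (r : ℤ) : ℝ :=
  (L.map fun p => if (p.k : ℤ) ∣ r - p.h then wt X p.A else 0).sum

lemma act_nonneg (X : Set ℤ) (L : List Piece) (r : ℤ) : 0 ≤ act X L r := by
  unfold act
  refine List.sum_nonneg ?_
  intro a ha
  obtain ⟨p, _, rfl⟩ := List.mem_map.1 ha
  split_ifs
  · linarith [half_le_wt X p.A]
  · exact le_rfl

lemma count_class (k M : ℕ) (hk : 0 < k) (hkM : k ∣ M) (hM : 0 < M) (h : ℤ) :
    (((Finset.Ico (0 : ℤ) M).filter fun r => (k : ℤ) ∣ r - h).card : ℝ) = (M : ℝ) / k := by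
  obtain ⟨m, rfl⟩ := hkM
  have h1 := Int.Ico_filter_modEq_card (0 : ℤ) ((k * m : ℕ) : ℤ) (r := (k : ℤ))
    (by exact_mod_cast hk) h
  have h2 : ((Finset.Ico (0 : ℤ) ((k * m : ℕ) : ℤ)).filter fun r => (k : ℤ) ∣ r - h) =
      ((Finset.Ico (0 : ℤ) ((k * m : ℕ) : ℤ)).filter fun r => r ≡ h [ZMOD (k : ℤ)]) := by
    refine Finset.filter_congr fun r _ => ?_
    rw [Int.modEq_comm, Int.modEq_iff_dvd]
  rw [h2]
  have hk' : (k : ℚ) ≠ 0 := by positivity
  have h3 : (⌈(((k * m : ℕ) : ℤ) - h : ℚ) / ((k : ℤ) : ℚ)⌉ : ℤ) =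
      ⌈((0 : ℤ) - h : ℚ) / ((k : ℤ) : ℚ)⌉ + m := by
    rw [← Int.ceil_add_natCast]
    congr 1
    push_cast
    field_simp
    ring
  rw [h3, add_sub_cancel_left] at h1
  have h4 : max (m : ℤ) 0 = m := max_eq_left (by positivity)
  rw [h4] at h1
  have h5 : (((Finset.Ico (0 : ℤ) ((k * m : ℕ) : ℤ)).filter
      fun r => r ≡ h [ZMOD (k : ℤ)]).card : ℝ) = m := by exact_mod_cast h1
  rw [h5]
  push_cast
  field_simp

lemma sum_act (X : Set ℤ) (L : List Piece) (M : ℕ) (hM : 0 < M) (hL : ∀ p ∈ L, p.k ∣ M) :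
    ∑ r ∈ Finset.Ico (0 : ℤ) M, act X L r = cost X L * M := by
  classical
  induction L with
  | nil => simp [act, cost]
  | cons p L ih =>
    have ih' := ih fun q hq => hL q (List.mem_cons_of_mem _ hq)
    have h1 : ∀ r, act X (p :: L) r =
        (if (p.k : ℤ) ∣ r - p.h then wt X p.A else 0) + act X L r := by
      intro r
      simp [act]
    have h2 : cost X (p :: L) = p.cost X + cost X L := by simp [cost]
    simp_rw [h1]
    rw [Finset.sum_add_distrib, ih', h2, add_mul, ← Finset.sum_filter, Finset.sum_const,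
      nsmul_eq_mul]
    have h3 := count_class p.k M p.pos (hL p List.mem_cons_self) hM p.h
    rw [h3, Piece.cost]
    ring

/-- The common period. -/
def period (L : List Piece) : ℕ := (L.map Piece.k).prod

lemma period_pos (L : List Piece) : 0 < period L := by
  unfold period
  refine Nat.pos_of_ne_zero ?_
  intro h
  rw [List.prod_eq_zero_iff] at h
  obtain ⟨p, _, hp⟩ := List.mem_map.1 h
  exact absurd hp (Nat.pos_iff_ne_zero.1 p.pos)

lemma dvd_period (L : List Piece) (p : Piece) (hp : p ∈ L) : p.k ∣ period L :=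
  List.dvd_prod (List.mem_map.2 ⟨p, hp, rfl⟩)

/-- A piece meeting a class is active on it. -/
lemma active_of_mem (p : Piece) (M : ℕ) (hpM : p.k ∣ M) (n r : ℤ) (hn : n ∈ p.set)
    (hr : (M : ℤ) ∣ n - r) : (p.k : ℤ) ∣ r - p.h := by
  obtain ⟨x, _, rfl⟩ := hn
  have h1 : (p.k : ℤ) ∣ ((p.k : ℤ) * x + p.h) - r := (Int.natCast_dvd_natCast.2 hpM).trans hr
  have h2 : r - p.h = (p.k : ℤ) * x - (((p.k : ℤ) * x + p.h) - r) := by ring
  rw [h2]
  exact dvd_sub (dvd_mul_right _ _) h1

lemma le_act_of_mem (X : Set ℤ) (L : List Piece) (p : Piece) (hp : p ∈ L) (r : ℤ)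
    (h : (p.k : ℤ) ∣ r - p.h) : wt X p.A ≤ act X L r := by
  classical
  unfold act
  have h1 : (if (p.k : ℤ) ∣ r - p.h then wt X p.A else 0) = wt X p.A := if_pos h
  rw [← h1]
  refine List.single_le_sum ?_ _ (List.mem_map.2 ⟨p, hp, rfl⟩)
  intro a ha
  obtain ⟨q, _, rfl⟩ := List.mem_map.1 ha
  split_ifs
  · linarith [half_le_wt X q.A]
  · exact le_rfl

/-- If a point of the class of `r` is covered, the total weight is at least `1/2`. -/
lemma half_le_act (X : Set ℤ) (L : List Piece) (M : ℕ) (hL : ∀ p ∈ L, p.k ∣ M) (n r : ℤ)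
    (hr : (M : ℤ) ∣ n - r) (hn : n ∈ uni L) : 1 / 2 ≤ act X L r := by
  obtain ⟨p, hp, hpn⟩ := hn
  exact (half_le_wt X p.A).trans
    (le_act_of_mem X L p hp r (active_of_mem p M (hL p hp) n r hpn hr))

/-- If the whole class of `r` is covered, the total weight is at least `1`. -/
lemma one_le_act {X : Set ℤ} (hX : Generic X) (L : List Piece) (M : ℕ) (hM : 0 < M)
    (hL : ∀ p ∈ L, p.k ∣ M) (r : ℤ) (hcov : ∀ n, (M : ℤ) ∣ n - r → n ∈ uni L) :
    1 ≤ act X L r := by
  classical
  by_contra hcon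
  push Not at hcon
  -- no active piece has weight one
  have h1 : ∀ p ∈ L, (p.k : ℤ) ∣ r - p.h → p.A = X ∨ p.A = Xᶜ := by
    intro p hp hact
    by_contra h
    have h2 := le_act_of_mem X L p hp r hact
    rw [wt, if_neg h] at h2
    linarith
  have hne : X ≠ Xᶜ := by
    intro h
    have : (0 : ℤ) ∈ X ↔ (0 : ℤ) ∉ X := by
      conv_lhs => rw [h]
      rfl
    tauto
  -- two active pieces are impossible
  let P : Finset (ℕ × ℤ) :=
    ((L.filter fun p => (p.k : ℤ) ∣ r - p.h ∧ p.A = Xᶜ).map fun p => (p.k, p.h)).toFinset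
  let N : Finset (ℕ × ℤ) :=
    ((L.filter fun p => (p.k : ℤ) ∣ r - p.h ∧ p.A = X).map fun p => (p.k, p.h)).toFinset
  have hP : ∀ q, q ∈ P ↔ ∃ p ∈ L, ((p.k : ℤ) ∣ r - p.h ∧ p.A = Xᶜ) ∧ (p.k, p.h) = q := by
    intro q
    simp [P, and_assoc]
  have hN : ∀ q, q ∈ N ↔ ∃ p ∈ L, ((p.k : ℤ) ∣ r - p.h ∧ p.A = X) ∧ (p.k, p.h) = q := by
    intro q
    simp [N, and_assoc]
  have hadm : Adm M r P N := by
    refine ⟨hM, ?_, ?_⟩
    · refine Finset.disjoint_left.2 fun q hq1 hq2 => ?_
      obtain ⟨p, hp, ⟨hp1, hp2⟩, hp3⟩ := (hP q).1 hq1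
      obtain ⟨p', hp', ⟨hp1', hp2'⟩, hp3'⟩ := (hN q).1 hq2
      -- two distinct active pieces of weight 1/2
      have hpp : p ≠ p' := by
        rintro rfl
        exact hne (hp2'.symm.trans hp2)
      have h3 : ∀ L : List Piece, p ∈ L → p' ∈ L → wt X p.A + wt X p'.A ≤ act X L r := by
        intro L
        induction L with
        | nil => intro h; simp at h
        | cons q L ih =>
          intro ha hb
          have h4 : act X (q :: L) r =
              (if (q.k : ℤ) ∣ r - q.h then wt X q.A else 0) + act X L r := by simp [act]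
          rw [h4]
          rcases List.mem_cons.1 ha with ha' | ha'
          · subst ha'
            rcases List.mem_cons.1 hb with hb' | hb'
            · exact absurd hb'.symm hpp
            · rw [if_pos hp1]
              have := le_act_of_mem X L p' hb' r hp1'
              linarith
          · rcases List.mem_cons.1 hb with hb' | hb'
            · subst hb'
              rw [if_pos hp1']
              have := le_act_of_mem X L p ha' r hp1
              linarith
            · have h5 := ih ha' hb'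
              have h6 : (0 : ℝ) ≤ if (q.k : ℤ) ∣ r - q.h then wt X q.A else 0 := by
                split_ifs
                · linarith [half_le_wt X q.A]
                · exact le_rfl
              linarith
      have h7 := h3 L hp hp'
      linarith [half_le_wt X p.A, half_le_wt X p'.A]
    · intro q hq
      rcases Finset.mem_union.1 hq with hq | hq
      · obtain ⟨p, hp, ⟨hp1, _⟩, rfl⟩ := (hP q).1 hq
        exact ⟨p.pos, hL p hp, hp1⟩
      · obtain ⟨p, hp, ⟨hp1, _⟩, rfl⟩ := (hN q).1 hq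
        exact ⟨p.pos, hL p hp, hp1⟩
  obtain ⟨n, hn1, hn2, hn3⟩ := hX M r P N hadm
  obtain ⟨p, hp, hpn⟩ := hcov n hn1
  have hact := active_of_mem p M (hL p hp) n r hpn hn1
  obtain ⟨x, hx, hxn⟩ := hpn
  have hk : (p.k : ℤ) ≠ 0 := by
    have := p.pos
    positivity
  have hdiv : (n - p.h) / (p.k : ℤ) = x := by
    rw [← hxn]
    simp only [add_sub_cancel_right]
    exact Int.mul_ediv_cancel_left _ hk
  rcases h1 p hp hact with hA | hA
  · have h8 := hn3 (p.k, p.h) ((hN _).2 ⟨p, hp, ⟨hact, hA⟩, rfl⟩)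
    simp only [hdiv] at h8
    rw [hA] at hx
    exact h8 hx
  · have h8 := hn2 (p.k, p.h) ((hP _).2 ⟨p, hp, ⟨hact, hA⟩, rfl⟩)
    simp only [hdiv] at h8
    rw [hA] at hx
    exact hx h8

lemma sum_ge (M : ℕ) (hM : 0 < M) (g : ℤ → ℝ) (c C : ℝ)
    (hg : ∀ r ∈ Finset.Ico (0 : ℤ) M, c ≤ g r)
    (hs : ∑ r ∈ Finset.Ico (0 : ℤ) M, g r = C * M) : c ≤ C := by
  have h1 : ∑ _r ∈ Finset.Ico (0 : ℤ) M, c ≤ ∑ r ∈ Finset.Ico (0 : ℤ) M, g r :=
    Finset.sum_le_sum hg
  rw [hs, Finset.sum_const, Int.card_Ico, nsmul_eq_mul] at h1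
  have h2 : (((M : ℤ) - 0).toNat : ℝ) = M := by simp
  rw [h2, mul_comm] at h1
  have h3 : (0 : ℝ) < M := by exact_mod_cast hM
  exact le_of_mul_le_mul_right h1 h3

lemma uni_append (L L' : List Piece) : uni (L ++ L') = uni L ∪ uni L' := by
  ext n
  simp only [uni, Set.mem_ofPred_eq, List.mem_append, Set.mem_union]
  constructor
  · rintro ⟨p, hp | hp, hn⟩
    · exact Or.inl ⟨p, hp, hn⟩
    · exact Or.inr ⟨p, hp, hn⟩
  · rintro (⟨p, hp, hn⟩ | ⟨p, hp, hn⟩)
    · exact ⟨p, Or.inl hp, hn⟩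
    · exact ⟨p, Or.inr hp, hn⟩

lemma cost_append (X : Set ℤ) (L L' : List Piece) : cost X (L ++ L') = cost X L + cost X L' := by
  simp [cost]

/-! ### Affine invariance -/

/-- Pushing a piece forward by `x ↦ k x + h`. -/
def push (k : ℕ) (h : ℤ) (hk : 0 < k) (p : Piece) : Piece :=
  ⟨k * p.k, k * p.h + h, p.A, Nat.mul_pos hk p.pos⟩

lemma set_push (k : ℕ) (h : ℤ) (hk : 0 < k) (p : Piece) :
    (push k h hk p).set = (fun x : ℤ => (k : ℤ) * x + h) '' p.set := by
  rw [Piece.set, Piece.set, Set.image_image]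
  refine Set.image_congr fun x _ => ?_
  simp only [push]
  push_cast
  ring

lemma uni_push (k : ℕ) (h : ℤ) (hk : 0 < k) (L : List Piece) :
    uni (L.map (push k h hk)) = (fun x : ℤ => (k : ℤ) * x + h) '' uni L := by
  ext n
  constructor
  · rintro ⟨p, hp, hn⟩
    obtain ⟨q, hq, rfl⟩ := List.mem_map.1 hp
    rw [set_push] at hn
    obtain ⟨x, hx, rfl⟩ := hn
    exact ⟨x, ⟨q, hq, hx⟩, rfl⟩
  · rintro ⟨x, ⟨q, hq, hx⟩, rfl⟩
    refine ⟨push k h hk q, List.mem_map.2 ⟨q, hq, rfl⟩, ?_⟩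
    rw [set_push]
    exact ⟨x, hx, rfl⟩

lemma cost_push (X : Set ℤ) (k : ℕ) (h : ℤ) (hk : 0 < k) (L : List Piece) :
    cost X (L.map (push k h hk)) = cost X L / k := by
  have hk' : (k : ℝ) ≠ 0 := by positivity
  induction L with
  | nil => simp [cost]
  | cons p L ih =>
    have h1 : cost X (List.map (push k h hk) (p :: L)) =
        (push k h hk p).cost X + cost X (List.map (push k h hk) L) := by simp [cost]
    have h2 : cost X (p :: L) = p.cost X + cost X L := by simp [cost]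
    have hp : (p.k : ℝ) ≠ 0 := by
      have := p.pos
      positivity
    rw [h1, h2, ih, add_div]
    congr 1
    simp only [Piece.cost, push]
    push_cast
    field_simp

/-- Pulling a piece back by `x ↦ k x + h`. -/
lemma exists_pull {X : Set ℤ} (hX : Generic X) (k : ℕ) (h : ℤ) (hk : 0 < k) (p : Piece)
    (hp : ∀ n ∈ p.set, ∃ y : ℤ, (k : ℤ) * y + h = n) :
    ∃ q : Piece, (∀ y : ℤ, y ∈ q.set ↔ (k : ℤ) * y + h ∈ p.set) ∧ q.cost X ≤ k * p.cost X := by
  have hk0 : (k : ℤ) ≠ 0 := by positivity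
  have hk' : (k : ℝ) ≠ 0 := by positivity
  have hkpos : (0 : ℝ) < k := by positivity
  have hpk : (0 : ℝ) < p.k := by
    have := p.pos
    positivity
  have hpk0 : (p.k : ℤ) ≠ 0 := by
    have := p.pos
    positivity
  by_cases hA : p.A = X ∨ p.A = Xᶜ
  · have hmeet : ∀ r : ℤ, ∃ x ∈ p.A, (k : ℤ) ∣ x - r := by
      intro r
      rcases hA with h1 | h1
      · rw [h1]; exact hX.meets hk r
      · rw [h1]; exact hX.meets_compl hk r
    obtain ⟨x₀, hx₀, d₀⟩ := hmeet 0
    obtain ⟨x₁, hx₁, d₁⟩ := hmeet 1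
    obtain ⟨y₀, hy₀⟩ := hp _ ⟨x₀, hx₀, rfl⟩
    obtain ⟨y₁, hy₁⟩ := hp _ ⟨x₁, hx₁, rfl⟩
    simp only at hy₀ hy₁
    have hdvd : (k : ℤ) ∣ p.k := by
      have h1 : (p.k : ℤ) = (k : ℤ) * (y₁ - y₀) - p.k * ((x₁ - 1) - (x₀ - 0)) := by
        linear_combination hy₀ - hy₁
      rw [h1]
      exact dvd_sub (dvd_mul_right _ _) ((dvd_sub d₁ d₀).mul_left _)
    obtain ⟨m, hm⟩ := Int.natCast_dvd_natCast.1 hdvd
    have hmpos : 0 < m := by
      rcases Nat.eq_zero_or_pos m with h0 | h0
      · rw [h0, mul_zero] at hm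
        have := p.pos
        omega
      · exact h0
    have hdvd2 : (k : ℤ) ∣ p.h - h := by
      have h1 : p.h - h = (k : ℤ) * y₀ - p.k * x₀ := by linear_combination -hy₀
      rw [h1]
      exact dvd_sub (dvd_mul_right _ _) (hdvd.mul_right _)
    obtain ⟨t, ht⟩ := hdvd2
    refine ⟨⟨m, t, p.A, hmpos⟩, fun y => ?_, ?_⟩
    · simp only [Piece.set, Set.mem_image]
      refine exists_congr fun x => and_congr_right fun _ => ?_
      rw [hm]
      push_cast
      constructor
      · intro h1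
        linear_combination (k : ℤ) * h1 + ht
      · intro h1
        have h2 : (k : ℤ) * (m * x + t) = k * y := by linear_combination h1 - ht
        exact mul_left_cancel₀ hk0 h2
    · simp only [Piece.cost]
      rw [hm]
      push_cast
      have hm' : (m : ℝ) ≠ 0 := by positivity
      apply le_of_eq
      field_simp
  · have hwt : wt X p.A = 1 := by rw [wt, if_neg hA]
    by_cases hne : ∃ y₀ : ℤ, (k : ℤ) * y₀ + h ∈ p.set
    · obtain ⟨y₀, hy₀⟩ := hne
      -- the gcd
      have hgpos : 0 < Nat.gcd k p.k := Nat.gcd_pos_of_pos_left _ hk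
      obtain ⟨k', m, hcop, e1, e2⟩ : ∃ k' m : ℕ, Nat.Coprime k' m ∧ k = k' * Nat.gcd k p.k ∧
          p.k = m * Nat.gcd k p.k := by
        obtain ⟨k', m, h1, h2, h3⟩ := Nat.exists_coprime k p.k
        exact ⟨k', m, h1, h2, h3⟩
      set g := Nat.gcd k p.k with hg
      have hmpos : 0 < m := by
        rcases Nat.eq_zero_or_pos m with h0 | h0
        · rw [h0, zero_mul] at e2
          have := p.pos
          omega
        · exact h0
      refine ⟨⟨m, y₀, {z : ℤ | (k : ℤ) * (m * z + y₀) + h ∈ p.set}, hmpos⟩, fun y => ?_, ?_⟩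
      · simp only [Piece.set, Set.mem_image]
        constructor
        · rintro ⟨z, hz, rfl⟩
          exact hz
        · intro hy
          have hd : (m : ℤ) ∣ y - y₀ := by
            obtain ⟨x, _, hx⟩ := hy
            obtain ⟨x₀, _, hx₀⟩ := hy₀
            simp only at hx hx₀
            have h1 : (g : ℤ) * (m * (x - x₀)) = g * (k' * (y - y₀)) := by
              have e1' : (k : ℤ) = k' * g := by exact_mod_cast e1
              have e2' : (p.k : ℤ) = m * g := by exact_mod_cast e2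
              rw [e1'] at hx hx₀
              rw [e2'] at hx hx₀
              linear_combination hx - hx₀
            have hg0 : (g : ℤ) ≠ 0 := by positivity
            have h2 : (m : ℤ) * (x - x₀) = k' * (y - y₀) := mul_left_cancel₀ hg0 h1
            have h3 : (m : ℤ) ∣ k' * (y - y₀) := ⟨x - x₀, h2.symm⟩
            have h4 : IsCoprime (m : ℤ) (k' : ℤ) := (Nat.isCoprime_iff_coprime.2 hcop).symm
            exact h4.dvd_of_dvd_mul_left h3
          obtain ⟨z, hz⟩ := hd
          refine ⟨z, ?_, by linarith⟩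
          change (k : ℤ) * (m * z + y₀) + h ∈ p.set
          have : (m : ℤ) * z + y₀ = y := by linarith
          rw [this]
          exact hy
      · simp only [Piece.cost]
        rw [hwt]
        have hm' : (0 : ℝ) < m := by positivity
        have hgk : (g : ℝ) ≤ k := by exact_mod_cast Nat.le_of_dvd hk (Nat.gcd_dvd_left k p.k)
        have e2' : (p.k : ℝ) = m * g := by exact_mod_cast e2
        have hg' : (0 : ℝ) < g := by exact_mod_cast hgpos
        refine (div_le_div_of_nonneg_right (wt_le_one X _) hm'.le).trans ?_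
        rw [e2', mul_one_div, div_le_div_iff₀ hm' (by positivity)]
        nlinarith
    · push Not at hne
      refine ⟨⟨p.k, 0, ∅, p.pos⟩, fun y => ?_, ?_⟩
      · simp only [Piece.set, Set.image_empty, Set.mem_empty_iff_false, false_iff]
        exact hne y
      · simp only [Piece.cost]
        rw [hwt]
        refine (div_le_div_of_nonneg_right (wt_le_one X _) hpk.le).trans ?_
        have h1 : (1 : ℝ) ≤ k := by exact_mod_cast hk
        rw [mul_one_div]
        exact div_le_div_of_nonneg_right h1 hpk.le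

lemma exists_pull_list {X : Set ℤ} (hX : Generic X) (k : ℕ) (h : ℤ) (hk : 0 < k)
    (L : List Piece) (hL : ∀ n ∈ uni L, ∃ y : ℤ, (k : ℤ) * y + h = n) :
    ∃ L' : List Piece, (∀ y : ℤ, y ∈ uni L' ↔ (k : ℤ) * y + h ∈ uni L) ∧
      cost X L' ≤ k * cost X L := by
  induction L with
  | nil => exact ⟨[], by simp [uni], by simp [cost]⟩
  | cons p L ih =>
    obtain ⟨L', h1, h2⟩ := ih fun n hn => hL n (by
      obtain ⟨q, hq, hqn⟩ := hn
      exact ⟨q, List.mem_cons_of_mem _ hq, hqn⟩)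
    obtain ⟨q, h3, h4⟩ := exists_pull hX k h hk p fun n hn =>
      hL n ⟨p, List.mem_cons_self, hn⟩
    refine ⟨q :: L', fun y => ?_, ?_⟩
    · have h5 : y ∈ uni (q :: L') ↔ y ∈ q.set ∨ y ∈ uni L' := by simp [uni]
      have h6 : (k : ℤ) * y + h ∈ uni (p :: L) ↔
          (k : ℤ) * y + h ∈ p.set ∨ (k : ℤ) * y + h ∈ uni L := by simp [uni]
      rw [h5, h6, h3, h1]
    · have h5 : cost X (q :: L') = q.cost X + cost X L' := by simp [cost]
      have h6 : cost X (p :: L) = p.cost X + cost X L := by simp [cost]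
      rw [h5, h6]
      linarith

lemma mu_affine {X : Set ℤ} (hX : Generic X) (S : Set ℤ) (k h : ℕ) (hk : 0 < k) :
    mu X ((fun x : ℤ => (k : ℤ) * x + (h : ℤ)) '' S) = mu X S / (k : ℝ) := by
  have hkpos : (0 : ℝ) < k := by positivity
  have hk0 : (k : ℤ) ≠ 0 := by positivity
  apply le_antisymm
  · rw [le_div_iff₀ hkpos]
    refine le_mu X S _ fun L hL => ?_
    have h1 := mu_le X (L.map (push k h hk))
    rw [uni_push, cost_push, hL] at h1
    rw [le_div_iff₀ hkpos] at h1
    exact h1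
  · refine le_mu X _ _ fun L hL => ?_
    obtain ⟨L', h1, h2⟩ := exists_pull_list hX k h hk L (by
      intro n hn
      rw [hL] at hn
      obtain ⟨y, _, hy⟩ := hn
      exact ⟨y, hy⟩)
    have h3 : uni L' = S := by
      ext y
      rw [h1, hL]
      constructor
      · rintro ⟨z, hz, hzy⟩
        have : z = y := by
          have h4 : (k : ℤ) * z = k * y := by
            simp only at hzy
            linarith
          exact mul_left_cancel₀ hk0 h4
        rw [← this]
        exact hz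
      · intro hy
        exact ⟨y, hy, rfl⟩
    have h4 := mu_le X L'
    rw [h3] at h4
    rw [div_le_iff₀ hkpos]
    linarith

lemma mu_univ {X : Set ℤ} (hX : Generic X) : mu X Set.univ = 1 := by
  apply le_antisymm
  · exact (mu_le_wt X _).trans (wt_le_one X _)
  · refine le_mu X _ _ fun L hL => ?_
    refine sum_ge (period L) (period_pos L) (act X L) 1 (cost X L) (fun r _ => ?_)
      (sum_act X L _ (period_pos L) (dvd_period L))
    exact one_le_act hX L _ (period_pos L) (dvd_period L) r fun n _ => by rw [hL]; trivial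

lemma half_le_mu (X S : Set ℤ) (hS : ∀ (M : ℕ), 0 < M → ∀ r : ℤ, ∃ n ∈ S, (M : ℤ) ∣ n - r) :
    1 / 2 ≤ mu X S := by
  refine le_mu X _ _ fun L hL => ?_
  refine sum_ge (period L) (period_pos L) (act X L) (1 / 2) (cost X L) (fun r _ => ?_)
    (sum_act X L _ (period_pos L) (dvd_period L))
  obtain ⟨n, hn, hr⟩ := hS _ (period_pos L) r
  exact half_le_act X L _ (dvd_period L) n r hr (by rw [hL]; exact hn)

lemma mu_self {X : Set ℤ} (hX : Generic X) : mu X X = 1 / 2 := by
  apply le_antisymm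
  · refine (mu_le_wt X X).trans ?_
    simp [wt]
  · exact half_le_mu X X fun M hM r => hX.meets hM r

lemma mu_compl {X : Set ℤ} (hX : Generic X) : mu X Xᶜ = 1 / 2 := by
  apply le_antisymm
  · refine (mu_le_wt X Xᶜ).trans ?_
    simp [wt]
  · exact half_le_mu X Xᶜ fun M hM r => hX.meets_compl hM r

lemma isUpperQuasiDensity {X : Set ℤ} (hX : Generic X) : IsUpperQuasiDensity (mu X) where
  univ_eq := mu_univ hX
  union_le := by
    intro A B
    refine le_of_forall_pos_le_add fun ε hε => ?_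
    obtain ⟨L, h1, h2⟩ := exists_lt X A (half_pos hε)
    obtain ⟨L', h3, h4⟩ := exists_lt X B (half_pos hε)
    have h5 := mu_le X (L ++ L')
    rw [uni_append, cost_append, h1, h3] at h5
    linarith
  affine := fun S k h hk _ => mu_affine hX S k h hk
  le_one := fun S => (mu_le_wt X S).trans (wt_le_one X S)

/-- A piece of special type inside the generic set is the generic set itself. -/
lemma special_piece {X : Set ℤ} (hX : Generic X) (p : Piece) (hp : p.set ⊆ X)
    (hA : p.A = X ∨ p.A = Xᶜ) : p.set = X := by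
  by_cases h1 : (p.k, p.h) = ((1 : ℕ), (0 : ℤ))
  · have hk : p.k = 1 := congrArg Prod.fst h1
    have hh : p.h = 0 := congrArg Prod.snd h1
    have hset : p.set = p.A := by
      simp [Piece.set, hk, hh]
    rcases hA with h2 | h2
    · rw [hset, h2]
    · exfalso
      rw [hset, h2] at hp
      obtain ⟨n, hn, _⟩ := hX.meets_compl one_pos 0
      exact hn (hp hn)
  · exfalso
    have hk0 : (p.k : ℤ) ≠ 0 := by
      have := p.pos
      positivity
    rcases hA with h2 | h2
    · obtain ⟨n, hn1, hn2, hn3⟩ := hX p.k p.h {(p.k, p.h)} {(1, 0)} ⟨p.pos, by simpa using h1, by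
        intro q hq
        simp only [Finset.mem_union, Finset.mem_singleton] at hq
        rcases hq with rfl | rfl
        · exact ⟨p.pos, dvd_rfl, by simp⟩
        · simp⟩
      have h3 := hn2 _ (Finset.mem_singleton_self _)
      have h4 := hn3 _ (Finset.mem_singleton_self _)
      simp only [sub_zero, Nat.cast_one, Int.ediv_one] at h3 h4
      obtain ⟨c, hc⟩ := hn1
      rw [hc, Int.mul_ediv_cancel_left _ hk0] at h3
      apply h4
      apply hp
      refine ⟨c, by rw [h2]; exact h3, ?_⟩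
      simp only
      linarith
    · obtain ⟨n, hn1, _, hn3⟩ := hX p.k p.h ∅ {(p.k, p.h), (1, 0)} ⟨p.pos, by simp, by
        intro q hq
        simp only [Finset.empty_union, Finset.mem_insert, Finset.mem_singleton] at hq
        rcases hq with rfl | rfl
        · exact ⟨p.pos, dvd_rfl, by simp⟩
        · simp⟩
      have h3 := hn3 (p.k, p.h) (by simp)
      have h4 := hn3 (1, 0) (by simp)
      simp only [sub_zero, Nat.cast_one, Int.ediv_one] at h3 h4
      obtain ⟨c, hc⟩ := hn1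
      rw [hc, Int.mul_ediv_cancel_left _ hk0] at h3
      apply h4
      apply hp
      refine ⟨c, by rw [h2]; exact h3, ?_⟩
      simp only
      linarith

/-- **There are an upper quasi-density `μ` on `ℤ`, a set `X` in the domain of the induced
quasi-density and a number `a` between `0` and `μ X` such that no subset of `X` in the domain has
quasi-density `a`.** -/
theorem result : ∃ μ : Set ℤ → ℝ, IsUpperQuasiDensity μ ∧ ∃ X : Set ℤ, InDom μ X ∧
    ∃ a : ℝ, 0 ≤ a ∧ a ≤ μ X ∧ ∀ Y : Set ℤ, Y ⊆ X → InDom μ Y → μ Y ≠ a := by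
  obtain ⟨X, hX⟩ := exists_generic
  refine ⟨mu X, isUpperQuasiDensity hX, X, ?_, 1 / 4, by norm_num, ?_, ?_⟩
  · rw [InDom, mu_self hX, mu_compl hX]
    norm_num
  · rw [mu_self hX]
    norm_num
  intro Y hYX hdom hY
  rw [InDom, hY] at hdom
  obtain ⟨L, hL1, hL2⟩ := exists_lt X Y (ε := 1 / 32) (by norm_num)
  obtain ⟨L', hL1', hL2'⟩ := exists_lt X Yᶜ (ε := 1 / 32) (by norm_num)
  rw [hY] at hL2
  -- all pieces of `L` have weight one
  have hwt : ∀ p ∈ L, wt X p.A = 1 := by
    intro p hp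
    unfold wt
    rw [if_neg]
    intro hA
    have hpY : p.set ⊆ Y := by
      intro n hn
      rw [← hL1]
      exact ⟨p, hp, hn⟩
    have h1 := special_piece hX p (hpY.trans hYX) hA
    have h2 : Y = X := le_antisymm hYX (by rw [← h1]; exact hpY)
    rw [h2, mu_self hX] at hY
    norm_num at hY
  set M := period (L ++ L') with hM
  have hMpos : 0 < M := period_pos _
  have hdL : ∀ p ∈ L, p.k ∣ M := fun p hp => dvd_period _ p (List.mem_append_left _ hp)
  have hdL' : ∀ p ∈ L', p.k ∣ M := fun p hp => dvd_period _ p (List.mem_append_right _ hp)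
  have h1 := sum_act X L M hMpos hdL
  have h2 := sum_act X L' M hMpos hdL'
  have h3 : ∑ r ∈ Finset.Ico (0 : ℤ) M, (act X L' r + 1 / 2 * act X L r) =
      (cost X L' + 1 / 2 * cost X L) * M := by
    rw [Finset.sum_add_distrib, ← Finset.mul_sum, h1, h2]
    ring
  have h4 : (1 : ℝ) ≤ cost X L' + 1 / 2 * cost X L := by
    refine sum_ge M hMpos _ 1 _ (fun r _ => ?_) h3
    by_cases hex : ∃ p ∈ L, (p.k : ℤ) ∣ r - p.h
    · obtain ⟨p, hp, hact⟩ := hex
      have h5 := le_act_of_mem X L p hp r hact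
      rw [hwt p hp] at h5
      obtain ⟨n, hn, hr⟩ := hX.meets_compl hMpos r
      have h6 : 1 / 2 ≤ act X L' r := by
        refine half_le_act X L' M hdL' n r hr ?_
        rw [hL1']
        exact fun h => hn (hYX h)
      linarith
    · push Not at hex
      have h5 : 1 ≤ act X L' r := by
        refine one_le_act hX L' M hMpos hdL' r fun n hr => ?_
        rw [hL1']
        intro hn
        rw [← hL1] at hn
        obtain ⟨p, hp, hpn⟩ := hn
        exact hex p hp (active_of_mem p M (hdL p hp) n r hpn hr)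
      have h6 := act_nonneg X L r
      linarith
  linarith

end Pool.Agent.Results.MP_52e7c8_nt.NoWeakDarboux
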